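import Mathlib

namespace Pool.Agent.H.MP_8cb698_co
open Finset Equiv

def Up {n : ℕ} (f : Perm (Fin n) → ℝ) : Prop :=
  ∀ a : Perm (Fin n), ∀ x y : Fin n, x < y → a y < a x → f a ≤ f (a * swap x y)

def PA (n : ℕ) (W : Perm (Fin n) → ℝ) : Prop :=
  ∀ f g : Perm (Fin n) → ℝ, (∀ a, 0 ≤ f a) → (∀ a, 0 ≤ g a) → Up f → Up g →
    (∑ a, W a * f a) * (∑ a, W a * g a) ≤ (∑ a, W a) * ∑ a, W a * (f a * g a)

def G (k l : ℕ) : Type := {s : Fin k → Fin (k + l) // StrictMono s}

noncomputable instance (k l : ℕ) : Fintype (G k l) := by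
  classical exact Subtype.fintype _

instance (k l : ℕ) : DistribLattice (G k l) :=
  Subtype.distribLattice (P := fun s : Fin k → Fin (k + l) => StrictMono s)
    (fun s t hs ht a b hab => by
      simp only [Pi.sup_apply]
      exact max_lt_max (hs hab) (ht hab))
    (fun s t hs ht a b hab => by
      simp only [Pi.inf_apply]
      exact min_lt_min (hs hab) (ht hab))

variable {k l : ℕ}

lemma card_compl (s : G k l) : (univ \ univ.image s.1).card = l := by
  rw [card_sdiff_of_subset (subset_univ _), card_image_of_injective _ s.2.injective]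
  simp

noncomputable def comp (s : G k l) : Fin l → Fin (k + l) :=
  (univ \ univ.image s.1).orderEmbOfFin (card_compl s)

lemma comp_mono (s : G k l) : StrictMono (comp s) :=
  ((univ \ univ.image s.1).orderEmbOfFin (card_compl s)).strictMono

lemma comp_ne (s : G k l) (j : Fin l) (i : Fin k) : comp s j ≠ s.1 i := by
  have := (univ \ univ.image s.1).orderEmbOfFin_mem (card_compl s) j
  intro h
  simp only [mem_sdiff, mem_univ, mem_image, true_and, not_exists] at this
  exact this i h.symm

lemma comp_unique (s : G k l) (t : Fin l → Fin (k + l)) (ht : StrictMono t)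
    (h : ∀ j i, t j ≠ s.1 i) : t = comp s := by
  apply Finset.orderEmbOfFin_unique (card_compl s) _ ht
  intro j
  simp only [mem_sdiff, mem_univ, mem_image, true_and, not_exists]
  intro i hi
  exact h j i hi.symm

lemma app_inj (s : G k l) : Function.Injective (Fin.append s.1 (comp s)) := by
  intro x y
  induction x using Fin.addCases with
  | left x =>
    induction y using Fin.addCases with
    | left y => simp only [Fin.append_left]; intro h; rw [s.2.injective h]
    | right y => simp only [Fin.append_left, Fin.append_right]; intro h; exact absurd h.symm (comp_ne s y x)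
  | right x =>
    induction y using Fin.addCases with
    | left y => simp only [Fin.append_left, Fin.append_right]; intro h; exact absurd h (comp_ne s x y)
    | right y => simp only [Fin.append_right]; intro h; rw [(comp_mono s).injective h]

noncomputable def base (s : G k l) : Perm (Fin (k + l)) :=
  Equiv.ofBijective (Fin.append s.1 (comp s)) (Finite.injective_iff_bijective.1 (app_inj s))

def blk (σ : Perm (Fin k)) (τ : Perm (Fin l)) : Perm (Fin (k + l)) :=
  finSumFinEquiv.permCongr (σ.sumCongr τ)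

noncomputable def Phi (s : G k l) (σ : Perm (Fin k)) (τ : Perm (Fin l)) : Perm (Fin (k + l)) :=
  base s * blk σ τ

@[simp] lemma Phi_left (s : G k l) (σ : Perm (Fin k)) (τ : Perm (Fin l)) (i : Fin k) :
    Phi s σ τ (Fin.castAdd l i) = s.1 (σ i) := by
  simp [Phi, base, blk]

@[simp] lemma Phi_right (s : G k l) (σ : Perm (Fin k)) (τ : Perm (Fin l)) (j : Fin l) :
    Phi s σ τ (Fin.natAdd k j) = comp s (τ j) := by
  simp [Phi, base, blk]

lemma Phi_bij : Function.Bijective
    (fun p : G k l × Perm (Fin k) × Perm (Fin l) => Phi p.1 p.2.1 p.2.2) := by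
  constructor
  · rintro ⟨s, σ, τ⟩ ⟨s', σ', τ'⟩ h
    simp only at h
    have h1 : ∀ i, s.1 (σ i) = s'.1 (σ' i) := fun i => by
      rw [← Phi_left s σ τ, h, Phi_left]
    have h2 : ∀ j, comp s (τ j) = comp s' (τ' j) := fun j => by
      rw [← Phi_right s σ τ, h, Phi_right]
    have hs : s = s' := by
      apply Subtype.ext
      apply (s.2.range_inj s'.2).1
      ext v
      constructor
      · rintro ⟨i, rfl⟩
        exact ⟨σ' (σ.symm i), by rw [← h1]; simp⟩
      · rintro ⟨i, rfl⟩
        exact ⟨σ (σ'.symm i), by rw [h1]; simp⟩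
    subst hs
    have e1 : σ = σ' := Equiv.ext fun i => s.2.injective (h1 i)
    have e2 : τ = τ' := Equiv.ext fun j => (comp_mono s).injective (h2 j)
    rw [e1, e2]
  · intro a
    have i1 : Function.Injective (fun i : Fin k => a (Fin.castAdd l i)) :=
      a.injective.comp (Fin.castAdd_injective _ _)
    have i2 : Function.Injective (fun j : Fin l => a (Fin.natAdd k j)) :=
      a.injective.comp (Fin.natAdd_injective _ _)
    set σ := Tuple.sort (fun i : Fin k => a (Fin.castAdd l i))
    set τ := Tuple.sort (fun j : Fin l => a (Fin.natAdd k j))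
    have m1 : StrictMono ((fun i : Fin k => a (Fin.castAdd l i)) ∘ σ) :=
      (Tuple.monotone_sort _).strictMono_of_injective (i1.comp σ.injective)
    have m2 : StrictMono ((fun j : Fin l => a (Fin.natAdd k j)) ∘ τ) :=
      (Tuple.monotone_sort _).strictMono_of_injective (i2.comp τ.injective)
    let s : G k l := ⟨_, m1⟩
    have hc : ((fun j : Fin l => a (Fin.natAdd k j)) ∘ τ) = comp s := by
      apply comp_unique s _ m2
      intro j i h
      have h' : Fin.natAdd k (τ j) = Fin.castAdd l (σ i) := a.injective h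
      have := congrArg Fin.val h'
      simp only [Fin.val_natAdd, Fin.val_castAdd] at this
      have := (σ i).2
      omega
    refine ⟨⟨s, σ.symm, τ.symm⟩, ?_⟩
    ext x
    induction x using Fin.addCases with
    | left x => simp [s]
    | right x => simp [← hc]

lemma sum_Phi (f : Perm (Fin (k + l)) → ℝ) :
    ∑ a, f a = ∑ s : G k l, ∑ σ : Perm (Fin k), ∑ τ : Perm (Fin l), f (Phi s σ τ) := by
  rw [← (Phi_bij (k := k) (l := l)).sum_comp f, Fintype.sum_prod_type]
  refine sum_congr rfl fun s _ => ?_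
  rw [Fintype.sum_prod_type]

lemma up_left {f : Perm (Fin (k + l)) → ℝ} (hf : Up f) (s : G k l) (τ : Perm (Fin l)) :
    Up (fun σ => f (Phi s σ τ)) := by
  intro σ x y hxy h
  have e : Phi s (σ * swap x y) τ = Phi s σ τ * swap (Fin.castAdd l x) (Fin.castAdd l y) := by
    ext z
    induction z using Fin.addCases with
    | left z =>
      rw [Perm.mul_apply, (Fin.castAdd_injective _ _).swap_apply, Phi_left, Phi_left]; rfl
    | right z =>
      rw [Perm.mul_apply, swap_apply_of_ne_of_ne, Phi_right, Phi_right]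
      · intro h'; have := congrArg Fin.val h'
        simp only [Fin.val_natAdd, Fin.val_castAdd] at this
        have := x.2; omega
      · intro h'; have := congrArg Fin.val h'
        simp only [Fin.val_natAdd, Fin.val_castAdd] at this
        have := y.2; omega
  simp only [e]
  apply hf
  · exact hxy
  · rw [Phi_left, Phi_left]; exact s.2 h

lemma up_right {f : Perm (Fin (k + l)) → ℝ} (hf : Up f) (s : G k l) (σ : Perm (Fin k)) :
    Up (fun τ => f (Phi s σ τ)) := by
  intro τ x y hxy h
  have e : Phi s σ (τ * swap x y) = Phi s σ τ * swap (Fin.natAdd k x) (Fin.natAdd k y) := by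
    ext z
    induction z using Fin.addCases with
    | right z =>
      rw [Perm.mul_apply, (Fin.natAdd_injective _ _).swap_apply, Phi_right, Phi_right]; rfl
    | left z =>
      rw [Perm.mul_apply, swap_apply_of_ne_of_ne, Phi_left, Phi_left]
      · intro h'; have := congrArg Fin.val h'
        simp only [Fin.val_natAdd, Fin.val_castAdd] at this
        have := z.2; omega
      · intro h'; have := congrArg Fin.val h'
        simp only [Fin.val_natAdd, Fin.val_castAdd] at this
        have := z.2; omega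
  simp only [e]
  apply hf
  · show (Fin.natAdd k x).val < (Fin.natAdd k y).val
    simp only [Fin.val_natAdd]
    have : x.val < y.val := hxy
    omega
  · rw [Phi_right, Phi_right]; exact comp_mono s h

lemma step {f : Perm (Fin (k + l)) → ℝ} (hf : Up f) (s t : G k l) (hst : s ≤ t) (hne : s ≠ t) :
    ∃ t' : G k l, s ≤ t' ∧ ∑ i, (t'.1 i).val < ∑ i, (t.1 i).val ∧
      ∀ σ τ, f (Phi t σ τ) ≤ f (Phi t' σ τ) := by
  classical
  have hle : ∀ i, s.1 i ≤ t.1 i := hst
  have hex : ∃ i, s.1 i < t.1 i := by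
    by_contra hcon
    push Not at hcon
    exact hne (Subtype.ext (funext fun i => le_antisymm (hle i) (hcon i)))
  obtain ⟨i, hi, hmin⟩ := WellFounded.has_min (wellFounded_lt (α := Fin k)) {i | s.1 i < t.1 i} hex
  have hi' : (s.1 i).val < (t.1 i).val := hi
  let v := t.1 i
  let u : Fin (k + l) := ⟨v.val - 1, by have := v.2; omega⟩
  have huv : u.val + 1 = v.val := by simp only [u, v]; omega
  have hu : ∀ i', t.1 i' ≠ u := by
    intro i' h
    rcases lt_or_ge i' i with h1 | h1
    · have h2 : ¬ s.1 i' < t.1 i' := fun h3 => hmin i' h3 h1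
      have h3 : (s.1 i').val < (s.1 i).val := s.2 h1
      have h4 : (t.1 i').val ≤ (s.1 i').val := not_lt.1 h2
      have h5 := congrArg Fin.val h
      simp only [u, v] at h5
      omega
    · have h3 : (t.1 i).val ≤ (t.1 i').val := t.2.monotone h1
      have h5 := congrArg Fin.val h
      simp only [u, v] at h5
      omega
  have sw : ∀ x : Fin (k + l), (swap u v x).val =
      if x.val = u.val then v.val else if x.val = v.val then u.val else x.val := by
    intro x
    by_cases h1 : x = u
    · simp [h1]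
    · by_cases h2 : x = v
      · subst h2
        have : ¬ (v.val = u.val) := by omega
        simp [this]
      · rw [swap_apply_of_ne_of_ne h1 h2, if_neg (fun h => h1 (Fin.ext h)),
          if_neg (fun h => h2 (Fin.ext h))]
  have m1 : StrictMono (fun i' => swap u v (t.1 i')) := by
    intro a b hab
    have h1 : (t.1 a).val < (t.1 b).val := t.2 hab
    have h2 : (t.1 a).val ≠ u.val := fun h => hu a (Fin.ext h)
    have h3 : (t.1 b).val ≠ u.val := fun h => hu b (Fin.ext h)
    show (swap u v (t.1 a)).val < (swap u v (t.1 b)).val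
    rw [sw, sw]
    split_ifs <;> omega
  let t' : G k l := ⟨_, m1⟩
  have hc : (fun j => swap u v (comp t j)) = comp t' := by
    apply comp_unique
    · intro a b hab
      have h1 : (comp t a).val < (comp t b).val := comp_mono t hab
      have h2 : (comp t a).val ≠ v.val := fun h => comp_ne t a i (Fin.ext h)
      have h3 : (comp t b).val ≠ v.val := fun h => comp_ne t b i (Fin.ext h)
      show (swap u v (comp t a)).val < (swap u v (comp t b)).val
      rw [sw, sw]
      split_ifs <;> omega
    · intro j i' h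
      exact comp_ne t j i' ((swap u v).injective h)
  have hle' : ∀ i', (t'.1 i').val ≤ (t.1 i').val := by
    intro i'
    have h2 : (t.1 i').val ≠ u.val := fun h => hu i' (Fin.ext h)
    show (swap u v (t.1 i')).val ≤ _
    rw [sw]
    split_ifs <;> omega
  refine ⟨t', ?_, ?_, ?_⟩
  · intro i'
    show (s.1 i').val ≤ (swap u v (t.1 i')).val
    have h2 : (t.1 i').val ≠ u.val := fun h => hu i' (Fin.ext h)
    have h3 : (s.1 i').val ≤ (t.1 i').val := hle i'
    rw [sw]
    split_ifs with h4 h5
    · omega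
    · have : i' = i := t.2.injective (Fin.ext h5)
      subst this
      omega
    · omega
  · apply sum_lt_sum (fun i' _ => hle' i')
    refine ⟨i, mem_univ _, ?_⟩
    show (swap u v (t.1 i)).val < _
    rw [sw]
    have : (t.1 i).val = v.val := rfl
    split_ifs <;> omega
  · intro σ τ
    have e : Phi t' σ τ = swap u v * Phi t σ τ := by
      ext z
      induction z using Fin.addCases with
      | left z => rw [Perm.mul_apply, Phi_left, Phi_left]
      | right z => rw [Perm.mul_apply, Phi_right, Phi_right, ← hc]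
    have hx : Phi t σ τ (Fin.castAdd l (σ.symm i)) = v := by simp [v]
    obtain ⟨y, hy⟩ := (Phi t σ τ).surjective u
    have hxy : Fin.castAdd l (σ.symm i) < y := by
      induction y using Fin.addCases with
      | left y => rw [Phi_left] at hy; exact absurd hy (hu _)
      | right y =>
        show (Fin.castAdd l (σ.symm i)).val < (Fin.natAdd k y).val
        simp only [Fin.val_natAdd, Fin.val_castAdd]
        have := (σ.symm i).2
        omega
    have := hf (Phi t σ τ) _ _ hxy (by rw [hx, hy]; show u.val < v.val; omega)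
    rw [Equiv.mul_swap_eq_swap_mul, hx, hy, swap_comm] at this
    rw [e]; exact this

lemma anti {f : Perm (Fin (k + l)) → ℝ} (hf : Up f) (s : G k l) (σ : Perm (Fin k))
    (τ : Perm (Fin l)) :
    ∀ (N : ℕ) (t : G k l), ∑ i, (t.1 i).val = N → s ≤ t → f (Phi t σ τ) ≤ f (Phi s σ τ) := by
  intro N
  induction N using Nat.strong_induction_on with
  | _ N ih =>
    intro t hN hst
    by_cases h : s = t
    · rw [h]
    · obtain ⟨t', h1, h2, h3⟩ := step hf s t hst h
      exact (h3 σ τ).trans (ih _ (hN ▸ h2) t' rfl h1)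

def U (n : ℕ) : Prop := PA n (fun _ => 1)

lemma cond (hk : U k) (hl : U l) (f g : Perm (Fin k) → Perm (Fin l) → ℝ)
    (f0 : ∀ σ τ, 0 ≤ f σ τ) (g0 : ∀ σ τ, 0 ≤ g σ τ)
    (f1 : ∀ τ, Up (fun σ => f σ τ)) (g1 : ∀ τ, Up (fun σ => g σ τ))
    (f2 : ∀ σ, Up (fun τ => f σ τ)) (g2 : ∀ σ, Up (fun τ => g σ τ)) :
    (∑ σ, ∑ τ, f σ τ) * (∑ σ, ∑ τ, g σ τ) ≤
      (∑ _σ : Perm (Fin k), ∑ _τ : Perm (Fin l), (1 : ℝ)) * ∑ σ, ∑ τ, f σ τ * g σ τ := by
  have a := hk (fun σ => ∑ τ, f σ τ) (fun σ => ∑ τ, g σ τ)
    (fun σ => sum_nonneg fun τ _ => f0 σ τ) (fun σ => sum_nonneg fun τ _ => g0 σ τ)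
    (fun σ x y h1 h2 => sum_le_sum fun τ _ => f1 τ σ x y h1 h2)
    (fun σ x y h1 h2 => sum_le_sum fun τ _ => g1 τ σ x y h1 h2)
  simp only [one_mul] at a
  have b : ∀ σ, (∑ τ, f σ τ) * (∑ τ, g σ τ) ≤ (∑ _τ : Perm (Fin l), (1 : ℝ)) * ∑ τ, f σ τ * g σ τ := by
    intro σ
    have := hl (fun τ => f σ τ) (fun τ => g σ τ) (f0 σ) (g0 σ) (f2 σ) (g2 σ)
    simpa only [one_mul] using this
  refine a.trans ?_
  have c : ∑ σ, (∑ τ, f σ τ) * (∑ τ, g σ τ) ≤
      (∑ _τ : Perm (Fin l), (1 : ℝ)) * ∑ σ, ∑ τ, f σ τ * g σ τ := by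
    rw [mul_sum]
    exact sum_le_sum fun σ _ => b σ
  have d : (∑ _σ : Perm (Fin k), ∑ _τ : Perm (Fin l), (1 : ℝ)) =
      (∑ _σ : Perm (Fin k), (1 : ℝ)) * (∑ _τ : Perm (Fin l), (1 : ℝ)) := by simp
  rw [d, mul_assoc]
  exact mul_le_mul_of_nonneg_left c (by simp)

lemma block (hk : U k) (hl : U l) (W : Perm (Fin (k + l)) → ℝ) (w : G k l → ℝ)
    (hW : ∀ s σ τ, W (Phi s σ τ) = w s) (w0 : ∀ s, 0 ≤ w s)
    (hw : ∀ s t, w s * w t ≤ w (s ⊓ t) * w (s ⊔ t)) : PA (k + l) W := by
  intro f g f0 g0 hf hg
  let F : G k l → ℝ := fun s => ∑ σ, ∑ τ, f (Phi s σ τ)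
  let H : G k l → ℝ := fun s => ∑ σ, ∑ τ, g (Phi s σ τ)
  let C : ℝ := ∑ _σ : Perm (Fin k), ∑ _τ : Perm (Fin l), (1 : ℝ)
  have F0 : ∀ s, 0 ≤ F s := fun s => sum_nonneg fun σ _ => sum_nonneg fun τ _ => f0 _
  have H0 : ∀ s, 0 ≤ H s := fun s => sum_nonneg fun σ _ => sum_nonneg fun τ _ => g0 _
  have Fa : ∀ s t, s ≤ t → F t ≤ F s := fun s t h =>
    sum_le_sum fun σ _ => sum_le_sum fun τ _ => anti hf s σ τ _ t rfl h
  have Ha : ∀ s t, s ≤ t → H t ≤ H s := fun s t h =>
    sum_le_sum fun σ _ => sum_le_sum fun τ _ => anti hg s σ τ _ t rfl h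
  have e1 : ∑ a, W a * f a = ∑ s, w s * F s := by
    rw [sum_Phi]; simp only [hW, F, mul_sum]
  have e2 : ∑ a, W a * g a = ∑ s, w s * H s := by
    rw [sum_Phi]; simp only [hW, H, mul_sum]
  have e3 : ∑ a, W a = C * ∑ s, w s := by
    rw [sum_Phi]; simp only [hW, C, mul_sum]; simp [mul_assoc]
  have e4 : ∑ a, W a * (f a * g a) =
      ∑ s, w s * ∑ σ, ∑ τ, f (Phi s σ τ) * g (Phi s σ τ) := by
    rw [sum_Phi]; simp only [hW, mul_sum]
  have ff := four_functions_theorem_univ (fun s => w s * F s) (fun s => w s * H s)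
    (fun s => w s * (F s * H s)) w (fun s => mul_nonneg (w0 s) (F0 s))
    (fun s => mul_nonneg (w0 s) (H0 s)) (fun s => mul_nonneg (w0 s) (mul_nonneg (F0 s) (H0 s)))
    w0 (fun s t => by
      have h1 := Fa _ _ (inf_le_left (a := s) (b := t))
      have h2 := Ha _ _ (inf_le_right (a := s) (b := t))
      calc w s * F s * (w t * H t) = (w s * w t) * (F s * H t) := by ring
        _ ≤ (w (s ⊓ t) * w (s ⊔ t)) * (F (s ⊓ t) * H (s ⊓ t)) :=
          mul_le_mul (hw s t) (mul_le_mul h1 h2 (H0 _) (F0 _)) (mul_nonneg (F0 _) (H0 _))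
            (mul_nonneg (w0 _) (w0 _))
        _ = _ := by ring)
  have c : ∑ s, w s * (F s * H s) ≤
      C * ∑ s, w s * ∑ σ, ∑ τ, f (Phi s σ τ) * g (Phi s σ τ) := by
    rw [mul_sum]
    refine sum_le_sum fun s _ => ?_
    have := cond hk hl (fun σ τ => f (Phi s σ τ)) (fun σ τ => g (Phi s σ τ))
      (fun _ _ => f0 _) (fun _ _ => g0 _) (up_left hf s) (up_left hg s) (up_right hf s)
      (up_right hg s)
    calc w s * (F s * H s) ≤ w s * (C * ∑ σ, ∑ τ, f (Phi s σ τ) * g (Phi s σ τ)) :=
          mul_le_mul_of_nonneg_left this (w0 s)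
      _ = _ := by ring
  rw [e1, e2, e3, e4]
  refine ff.trans ?_
  calc (∑ s, w s * (F s * H s)) * ∑ s, w s
      ≤ (C * ∑ s, w s * ∑ σ, ∑ τ, f (Phi s σ τ) * g (Phi s σ τ)) * ∑ s, w s :=
        mul_le_mul_of_nonneg_right c (sum_nonneg fun s _ => w0 s)
    _ = _ := by ring

lemma U_all (n : ℕ) : U n := by
  have h1 : U 1 := by
    intro f g _ _ _ _
    simp
  induction n with
  | zero =>
    intro f g _ _ _ _
    simp
  | succ n ih => exact block ih h1 _ (fun _ => 1) (fun _ _ _ => rfl) (fun _ => zero_le_one) (by simp)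

/-- weight depending multiplicatively on the values placed in the first block -/
theorem main (k l : ℕ) (φ : Fin (k + l) → ℝ) (h0 : ∀ v, 0 ≤ φ v) :
    PA (k + l) (fun a => ∏ i : Fin k, φ (a (Fin.castAdd l i))) := by
  refine block (U_all k) (U_all l) _ (fun s => ∏ i, φ (s.1 i)) ?_ ?_ ?_
  · intro s σ τ
    simp only [Phi_left]
    exact Equiv.prod_comp σ (fun i => φ (s.1 i))
  · intro s; exact prod_nonneg fun i _ => h0 _
  · intro s t
    rw [← prod_mul_distrib, ← prod_mul_distrib]
    apply le_of_eq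
    refine prod_congr rfl fun i _ => ?_
    show _ = φ (min (s.1 i) (t.1 i)) * φ (max (s.1 i) (t.1 i))
    rcases le_total (s.1 i) (t.1 i) with h | h
    · rw [min_eq_left h, max_eq_right h]
    · rw [min_eq_right h, max_eq_left h, mul_comm]

end Pool.Agent.H.MP_8cb698_co
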